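import Pool.Agent.W792.GK.Stm

/-!
GK-FINAL: Baire category argument and conclusion.
-/

set_option autoImplicit false

namespace Pool.Agent.W174.GK

open MeasureTheory Filter Topology Pool.Agent.W792.GK
open scoped ENNReal

noncomputable section

/-! ### Translations -/

theorem map_shift {ι : Type} [AddCommGroup ι] (ν : Measure ℝ) [IsProbabilityMeasure ν] (y : ι) :
    (Measure.infinitePi (fun _ : ι => ν)).map (fun v x => v (x + y)) =
      Measure.infinitePi (fun _ : ι => ν) := by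
  classical
  refine Measure.eq_infinitePi (fun _ : ι => ν) fun s t ht => ?_
  rw [Measure.map_apply (by fun_prop) (MeasurableSet.pi s.countable_toSet fun i _ => ht i)]
  have h1 : (fun (v : ι → ℝ) x => v (x + y)) ⁻¹' (Set.pi (↑s) t) =
      Set.pi (↑(s.image (fun x => x + y))) (fun x => t (x - y)) := by
    ext v
    simp only [Set.mem_preimage, Set.mem_pi, Finset.mem_coe, Finset.coe_image, Set.mem_image]
    constructor
    · rintro h _ ⟨i, hi, rfl⟩
      simpa using h i hi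
    · intro h i hi
      have := h (i + y) ⟨i, hi, rfl⟩
      simpa using this
  rw [h1, Measure.infinitePi_pi (μ := fun _ : ι => ν) (fun i _ => ht _),
    Finset.prod_image (fun a _ b _ h => add_right_cancel h)]
  simp

theorem ae_shift {ι : Type} [AddCommGroup ι] (ν : Measure ℝ) [IsProbabilityMeasure ν] (y : ι)
    {p : (ι → ℝ) → Prop} (h : ∀ᵐ v ∂(Measure.infinitePi fun _ : ι => ν), p v) :
    ∀ᵐ v ∂(Measure.infinitePi fun _ : ι => ν), p (fun x => v (x + y)) := by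
  have h1 : Measure.QuasiMeasurePreserving (fun (v : ι → ℝ) x => v (x + y))
      (Measure.infinitePi fun _ : ι => ν) (Measure.infinitePi fun _ : ι => ν) :=
    ⟨by fun_prop, by rw [map_shift]⟩
  exact h1.ae h

/-! ### The functional -/

/-- The number of terms. -/
def nt (η B : ℝ) : ℝ := ((Finset.Icc (-⌈B / η⌉) ⌈B / η⌉).card : ℝ)

theorem Qz_lip (hL : S_LIP) {d : ℕ} (K K' : C(UnitAddTorus (Fin d), ℝ)) {η B R : ℝ} (hη : 0 < η)
    (hR : 0 < R) (v : (Fin d → ℤ) → ℝ) :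
    |Qz K η B R v - Qz K' η B R v| ≤ η ^ 2 * (nt η B * (‖K - K'‖ / η ^ 2 * (2 / η))) := by
  unfold Qz nt
  rw [← mul_sub, abs_mul, abs_of_nonneg (by positivity), ← Finset.sum_sub_distrib]
  apply mul_le_mul_of_nonneg_left _ (by positivity)
  refine (Finset.abs_sum_le_sum_abs _ _).trans ?_
  rw [← nsmul_eq_mul, ← Finset.sum_const]
  refine Finset.sum_le_sum fun k _ => ?_
  have hz : 0 < (zk η k).im := hη
  have h1 := hL (Fin d) K K' R hR v (zk η k) hz
  have h2 := hL (Fin d) K' K R hR v (zk η k) hz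
  have he : (zk η k).im = η := rfl
  rw [he] at h1 h2
  obtain ⟨a1, a2, a3⟩ := h1
  obtain ⟨-, b2, b3⟩ := h2
  rw [sq_sub_sq, abs_mul, mul_comm]
  apply mul_le_mul a1 _ (abs_nonneg _) (by positivity)
  rw [abs_of_nonneg (by linarith)]
  have : 2 / η = 1 / η + 1 / η := by ring
  rw [this]
  linarith

theorem Qz_nonneg {d : ℕ} (K : C(UnitAddTorus (Fin d), ℝ)) (η B R : ℝ)
    (v : (Fin d → ℤ) → ℝ) : 0 ≤ Qz K η B R v := by
  unfold Qz
  exact mul_nonneg (sq_nonneg _) (Finset.sum_nonneg fun _ _ => sq_nonneg _)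

theorem Qz_le (hL : S_LIP) {d : ℕ} (K : C(UnitAddTorus (Fin d), ℝ)) {η B R : ℝ} (hη : 0 < η)
    (hR : 0 < R) (v : (Fin d → ℤ) → ℝ) :
    Qz K η B R v ≤ η ^ 2 * (nt η B * (1 / η) ^ 2) := by
  unfold Qz nt
  apply mul_le_mul_of_nonneg_left _ (by positivity)
  rw [← nsmul_eq_mul, ← Finset.sum_const]
  refine Finset.sum_le_sum fun k _ => ?_
  have hz : 0 < (zk η k).im := hη
  obtain ⟨-, h2, h3⟩ := hL (Fin d) K K R hR v (zk η k) hz
  exact pow_le_pow_left₀ h2 h3 2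

theorem Qz_meas (hM : S_MEAS) {d : ℕ} (K : C(UnitAddTorus (Fin d), ℝ)) {η B R : ℝ} (hη : 0 < η)
    (hR : 0 < R) : Measurable (Qz K η B R) := by
  unfold Qz
  apply Measurable.const_mul
  apply Finset.measurable_fun_sum
  intro k _
  exact (hM (Fin d) K R hR (zk η k) hη).pow_const 2

theorem Qz_int (hL : S_LIP) (hM : S_MEAS) {d : ℕ} (K : C(UnitAddTorus (Fin d), ℝ)) {η B R : ℝ}
    (hη : 0 < η) (hR : 0 < R) (ν : Measure ℝ) [IsProbabilityMeasure ν] :
    Integrable (Qz K η B R) (Measure.infinitePi fun _ : Fin d → ℤ => ν) := by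
  refine Integrable.of_bound (Qz_meas hM K hη hR).aestronglyMeasurable
    (η ^ 2 * (nt η B * (1 / η) ^ 2)) (Eventually.of_forall fun v => ?_)
  rw [Real.norm_eq_abs, abs_of_nonneg (Qz_nonneg K η B R v)]
  exact Qz_le hL K hη hR v

/-! ### The open dense sets -/

/-- The constant of `S_EIG`. -/
def cc {d : ℕ} (K : C(UnitAddTorus (Fin d), ℝ)) (η : ℝ) (m : ℕ) : ℝ :=
  ((m : ℝ) + ‖K‖) * (1 + (‖K‖ + m + 2) / η)

/-- The open sets. -/
def Om (d m : ℕ) : Set C(UnitAddTorus (Fin d), ℝ) :=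
  {K | ∃ η R ρ : ℝ, 0 < η ∧ η ≤ 1 ∧ 0 < R ∧ cc K η m / R < 1 / ((m : ℝ) + 1) ∧
    ρ < 1 / ((m : ℝ) + 1) ∧ ∀ (ν : Measure ℝ) [IsProbabilityMeasure ν],
      ∫ v, Qz K η m R v ∂(Measure.infinitePi fun _ : Fin d → ℤ => ν) ≤ ρ}

theorem Om_open (hL : S_LIP) (hM : S_MEAS) (d m : ℕ) : IsOpen (Om d m) := by
  rw [isOpen_iff_mem_nhds]
  rintro K ⟨η, R, ρ, hη, hη1, hR, hc, hρ, hQ⟩
  obtain ⟨Cn, hCn⟩ : ∃ Cn : ℝ, Cn = η ^ 2 * (nt η m * (1 / η ^ 2 * (2 / η))) := ⟨_, rfl⟩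
  have h1 : ∀ᶠ K' in 𝓝 K, cc K' η m / R < 1 / ((m : ℝ) + 1) := by
    have hcont : Continuous fun K' : C(UnitAddTorus (Fin d), ℝ) => cc K' η m / R := by
      unfold cc
      fun_prop
    exact hcont.continuousAt.eventually (gt_mem_nhds hc)
  have h2 : ∀ᶠ K' in 𝓝 K, ρ + Cn * ‖K' - K‖ < 1 / ((m : ℝ) + 1) := by
    have hcont : Continuous fun K' : C(UnitAddTorus (Fin d), ℝ) => ρ + Cn * ‖K' - K‖ := by
      fun_prop
    refine hcont.continuousAt.eventually (gt_mem_nhds ?_)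
    show ρ + Cn * ‖K - K‖ < 1 / ((m : ℝ) + 1)
    rw [sub_self, norm_zero, mul_zero, add_zero]
    exact hρ
  filter_upwards [h1, h2] with K' h3 h4
  refine ⟨η, R, ρ + Cn * ‖K' - K‖, hη, hη1, hR, h3, h4, ?_⟩
  intro ν _
  have h5 : ∀ v, Qz K' η m R v ≤ Qz K η m R v + Cn * ‖K' - K‖ := by
    intro v
    have h6 := le_trans (le_abs_self _) (Qz_lip hL K' K (B := m) hη hR v)
    have h7 : η ^ 2 * (nt η m * (‖K' - K‖ / η ^ 2 * (2 / η))) = Cn * ‖K' - K‖ := by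
      rw [hCn]; ring
    linarith
  calc ∫ v, Qz K' η m R v ∂(Measure.infinitePi fun _ : Fin d → ℤ => ν)
      ≤ ∫ v, (Qz K η m R v + Cn * ‖K' - K‖) ∂(Measure.infinitePi fun _ : Fin d → ℤ => ν) :=
        integral_mono (Qz_int hL hM K' hη hR ν)
          ((Qz_int hL hM K hη hR ν).add (integrable_const _)) h5
    _ = (∫ v, Qz K η m R v ∂(Measure.infinitePi fun _ : Fin d → ℤ => ν)) + Cn * ‖K' - K‖ := by
        rw [integral_add (Qz_int hL hM K hη hR ν) (integrable_const _)]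
        simp
    _ ≤ ρ + Cn * ‖K' - K‖ := by
        have := hQ ν
        linarith

theorem isSym_add {d : ℕ} {f g : C(UnitAddTorus (Fin d), ℝ)} (hf : IsSym f) (hg : IsSym g) :
    IsSym (f + g) := by
  refine ⟨fun σ k => ?_, fun i k => ?_⟩
  · rw [ContinuousMap.add_apply, ContinuousMap.add_apply, hf.1, hg.1]
  · rw [ContinuousMap.add_apply, ContinuousMap.add_apply, hf.2, hg.2]

theorem isClosed_sym (d : ℕ) : IsClosed {f : C(UnitAddTorus (Fin d), ℝ) | IsSym f} := by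
  have h : {f : C(UnitAddTorus (Fin d), ℝ) | IsSym f} =
      (⋂ (σ : Equiv.Perm (Fin d)) (k : UnitAddTorus (Fin d)),
        {f : C(UnitAddTorus (Fin d), ℝ) | f (fun i => k (σ i)) = f k}) ∩
      ⋂ (i : Fin d) (k : UnitAddTorus (Fin d)),
        {f : C(UnitAddTorus (Fin d), ℝ) | f (Function.update k i (-(k i))) = f k} := by
    ext f
    simp only [IsSym, Set.mem_inter_iff, Set.mem_iInter, Set.mem_ofPred_eq]
  rw [h]
  refine IsClosed.inter ?_ ?_
  · refine isClosed_iInter fun σ => isClosed_iInter fun k => ?_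
    exact isClosed_eq (continuous_eval_const _)
      (continuous_eval_const _)
  · refine isClosed_iInter fun i => isClosed_iInter fun k => ?_
    exact isClosed_eq (continuous_eval_const _)
      (continuous_eval_const _)

theorem baire (d : ℕ) : BaireSpace (SymSp d) := by
  have : CompleteSpace {f : C(UnitAddTorus (Fin d), ℝ) // IsSym f} :=
    (isClosed_sym d).completeSpace_coe
  have h : BaireSpace {f : C(UnitAddTorus (Fin d), ℝ) // IsSym f} := inferInstance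
  exact h

theorem Om_near (hKP : S_KP) {d : ℕ} (hd : 0 < d) (m : ℕ) (K₀ : C(UnitAddTorus (Fin d), ℝ))
    (h0 : IsSym K₀) {ε : ℝ} (hε : 0 < ε) :
    ∃ K : C(UnitAddTorus (Fin d), ℝ), IsSym K ∧ ‖K - K₀‖ < ε ∧ K ∈ Om d m := by
  obtain ⟨s, hs⟩ : ∃ s : ℝ, s = ε / 4 := ⟨_, rfl⟩
  have hs0 : 0 < s := by rw [hs]; positivity
  have hm0 : (0 : ℝ) < (m : ℝ) + 1 := by positivity
  obtain ⟨τ, hτ⟩ : ∃ τ : ℝ, τ = 1 / (4 * ((m : ℝ) + 1)) := ⟨_, rfl⟩
  have hτ0 : 0 < τ := by rw [hτ]; positivity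
  -- the mesh
  obtain ⟨η, hη0, hη1, hη⟩ : ∃ η : ℝ, 0 < η ∧ η ≤ 1 ∧
      (10 / s) * Real.sqrt (((m : ℝ) + 1) * η) ≤ τ := by
    obtain ⟨y, hy⟩ : ∃ y : ℝ, y = (s * τ / 10) ^ 2 / ((m : ℝ) + 1) := ⟨_, rfl⟩
    have hy0 : 0 < y := by rw [hy]; positivity
    refine ⟨min 1 y, lt_min one_pos hy0, min_le_left _ _, ?_⟩
    have h1 : ((m : ℝ) + 1) * min 1 y ≤ (s * τ / 10) ^ 2 := by
      calc ((m : ℝ) + 1) * min 1 y ≤ ((m : ℝ) + 1) * y :=
            mul_le_mul_of_nonneg_left (min_le_right _ _) hm0.le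
        _ = (s * τ / 10) ^ 2 := by rw [hy]; field_simp
    have h2 : Real.sqrt (((m : ℝ) + 1) * min 1 y) ≤ s * τ / 10 := by
      calc Real.sqrt (((m : ℝ) + 1) * min 1 y) ≤ Real.sqrt ((s * τ / 10) ^ 2) :=
            Real.sqrt_le_sqrt h1
        _ = s * τ / 10 := Real.sqrt_sq (by positivity)
    calc (10 / s) * Real.sqrt (((m : ℝ) + 1) * min 1 y) ≤ (10 / s) * (s * τ / 10) :=
          mul_le_mul_of_nonneg_left h2 (by positivity)
      _ = τ := by field_simp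
  -- the cutoff
  obtain ⟨c, hc⟩ : ∃ c : ℝ, c = ((m : ℝ) + (‖K₀‖ + ε)) * (1 + ((‖K₀‖ + ε) + m + 2) / η) :=
    ⟨_, rfl⟩
  have hc0 : 0 < c := by rw [hc]; positivity
  obtain ⟨R, hR⟩ : ∃ R : ℝ, R = 2 * c * ((m : ℝ) + 1) := ⟨_, rfl⟩
  have hR0 : 0 < R := by rw [hR]; positivity
  obtain ⟨b, hb, hbn, hQ⟩ := hKP d hd K₀ s η m R τ hs0 hη0 hη1 (by positivity) hR0 hτ0
  refine ⟨K₀ + b, isSym_add h0 hb, ?_, η, R, 2 * τ, hη0, hη1, hR0, ?_, ?_, ?_⟩
  · rw [add_sub_cancel_left]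
    linarith
  · have h1 : ‖K₀ + b‖ ≤ ‖K₀‖ + ε := (norm_add_le _ _).trans (by linarith)
    have h2 : cc (K₀ + b) η m ≤ c := by
      unfold cc
      rw [hc]
      gcongr
    rw [div_lt_iff₀ hR0]
    have h3 : 1 / ((m : ℝ) + 1) * R = 2 * c := by rw [hR]; field_simp
    rw [h3]
    linarith
  · rw [hτ]
    have : 2 * (1 / (4 * ((m : ℝ) + 1))) = 1 / 2 * (1 / ((m : ℝ) + 1)) := by field_simp; norm_num
    rw [this]
    have : 0 < 1 / ((m : ℝ) + 1) := by positivity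
    linarith
  · intro ν _
    have := hQ ν
    linarith

theorem Om_dense (hKP : S_KP) {d : ℕ} (hd : 0 < d) (m : ℕ) :
    Dense {K : SymSp d | K.1 ∈ Om d m} := by
  intro K₀
  rw [mem_closure_iff_nhds]
  intro t ht
  have ht' : ∃ u ∈ 𝓝 K₀.1, Subtype.val ⁻¹' u ⊆ t := by
    have h1 : t ∈ @nhds _ instTopologicalSpaceSubtype K₀ := ht
    exact mem_nhds_induced Subtype.val K₀ t |>.1 h1
  obtain ⟨u, hu, hut⟩ := ht'
  obtain ⟨ε, hε, hball⟩ := Metric.mem_nhds_iff.1 hu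
  obtain ⟨K, hK, hKn, hKO⟩ := Om_near hKP hd m K₀.1 K₀.2 hε
  refine ⟨⟨K, hK⟩, hut ?_, hKO⟩
  apply hball
  rw [Metric.mem_ball, dist_eq_norm]
  exact hKn

/-! ### No eigenvalues -/

theorem good0 (hE : S_EIG) (hL : S_LIP) (hM : S_MEAS) {d : ℕ}
    {K : C(UnitAddTorus (Fin d), ℝ)} (hK : ∀ m, K ∈ Om d m) (ν : Measure ℝ)
    [IsProbabilityMeasure ν] :
    ∀ᵐ v ∂(Measure.infinitePi fun _ : Fin d → ℤ => ν), ∀ (E : ℝ) (u : (Fin d → ℤ) → ℂ),
      HasSum (fun x => ‖u x‖ ^ 2) 1 →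
      (∀ x, ∑' y, hop K (x - y) * u y + (v x : ℂ) * u x = (E : ℂ) * u x) → u 0 = 0 := by
  choose η R ρ hη hη1 hR hc hρ hQ using hK
  have hAm : ∀ m : ℕ, Measurable (Qz K (η m) (m : ℝ) (R m)) := fun m =>
    Qz_meas hM K (hη m) (hR m)
  have hint : ∀ m : ℕ, ∫⁻ v, ENNReal.ofReal (Qz K (η m) (m : ℝ) (R m) v)
      ∂(Measure.infinitePi fun _ : Fin d → ℤ => ν) ≤ ENNReal.ofReal (1 / ((m : ℝ) + 1)) := by
    intro m
    rw [← ofReal_integral_eq_lintegral_ofReal (Qz_int hL hM K (hη m) (hR m) ν)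
      (Eventually.of_forall fun v => Qz_nonneg K _ _ _ v)]
    exact ENNReal.ofReal_le_ofReal ((hQ m ν).trans (hρ m).le)
  have hfat : ∫⁻ v, liminf (fun m : ℕ => ENNReal.ofReal (Qz K (η m) (m : ℝ) (R m) v)) atTop
      ∂(Measure.infinitePi fun _ : Fin d → ℤ => ν) = 0 := by
    have h1 := lintegral_liminf_le (u := atTop) (μ := Measure.infinitePi fun _ : Fin d → ℤ => ν)
      (f := fun (m : ℕ) v => ENNReal.ofReal (Qz K (η m) (m : ℝ) (R m) v))
      (fun m => (hAm m).ennreal_ofReal)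
    have h2 : liminf (fun m : ℕ => ∫⁻ v, ENNReal.ofReal (Qz K (η m) (m : ℝ) (R m) v)
        ∂(Measure.infinitePi fun _ : Fin d → ℤ => ν)) atTop ≤
        liminf (fun m : ℕ => ENNReal.ofReal (1 / ((m : ℝ) + 1))) atTop :=
      liminf_le_liminf (Eventually.of_forall hint)
    have h3 : Tendsto (fun m : ℕ => ENNReal.ofReal (1 / ((m : ℝ) + 1))) atTop (𝓝 0) := by
      have := ENNReal.tendsto_ofReal (tendsto_one_div_add_atTop_nhds_zero_nat (𝕜 := ℝ))
      rwa [ENNReal.ofReal_zero] at this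
    rw [h3.liminf_eq] at h2
    exact le_antisymm (h1.trans h2) bot_le
  have hmeas : Measurable fun v : (Fin d → ℤ) → ℝ =>
      liminf (fun m : ℕ => ENNReal.ofReal (Qz K (η m) (m : ℝ) (R m) v)) atTop :=
    Measurable.liminf (f := fun (m : ℕ) v => ENNReal.ofReal (Qz K (η m) (m : ℝ) (R m) v))
      fun m => (hAm m).ennreal_ofReal
  have hae := (lintegral_eq_zero_iff hmeas).1 hfat
  filter_upwards [hae] with v hv E u hu heq
  by_contra hcon
  have ha : 0 < ‖u 0‖ := norm_pos_iff.2 hcon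
  -- eventually the functional is large
  have hev : ∀ᶠ m : ℕ in atTop, ENNReal.ofReal ((‖u 0‖ / 2) ^ 4 / 4) ≤
      ENNReal.ofReal (Qz K (η m) (m : ℝ) (R m) v) := by
    have h1 : ∀ᶠ m : ℕ in atTop, 1 / ((m : ℝ) + 1) < ‖u 0‖ / 2 :=
      (tendsto_one_div_add_atTop_nhds_zero_nat (𝕜 := ℝ)).eventually
        (gt_mem_nhds (by positivity))
    have h2 : ∀ᶠ m : ℕ in atTop, |E| ≤ (m : ℝ) :=
      tendsto_natCast_atTop_atTop.eventually (eventually_ge_atTop |E|)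
    filter_upwards [h1, h2] with m h3 h4
    apply ENNReal.ofReal_le_ofReal
    have h5 := hE (Fin d) K (η m) m (R m) (hη m) (hη1 m) (by positivity) (hR m) v E u h4 hu heq
    have h6 := hc m
    unfold cc at h6
    have h7 : ‖u 0‖ / 2 ≤ max 0 (‖u 0‖ - ((m : ℝ) + ‖K‖) *
        (1 + (‖K‖ + m + 2) / η m) / R m) := by
      refine le_trans ?_ (le_max_right _ _)
      linarith
    have h8 := pow_le_pow_left₀ (by positivity : (0:ℝ) ≤ ‖u 0‖ / 2) h7 4
    linarith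
  have h9 : ENNReal.ofReal ((‖u 0‖ / 2) ^ 4 / 4) ≤
      liminf (fun m : ℕ => ENNReal.ofReal (Qz K (η m) (m : ℝ) (R m) v)) atTop :=
    le_liminf_of_le (by isBoundedDefault) hev
  rw [hv] at h9
  have h10 : 0 < ENNReal.ofReal ((‖u 0‖ / 2) ^ 4 / 4) := ENNReal.ofReal_pos.2 (by positivity)
  exact absurd h9 (not_le.2 h10)

theorem noEig (hE : S_EIG) (hL : S_LIP) (hM : S_MEAS) {d : ℕ}
    {K : C(UnitAddTorus (Fin d), ℝ)} (hK : ∀ m, K ∈ Om d m) (ν : Measure ℝ)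
    [IsProbabilityMeasure ν] :
    ∀ᵐ v ∂(Measure.infinitePi fun _ : Fin d → ℤ => ν), NoEig K v := by
  have h1 : ∀ᵐ v ∂(Measure.infinitePi fun _ : Fin d → ℤ => ν), ∀ y : Fin d → ℤ,
      ∀ (E : ℝ) (u : (Fin d → ℤ) → ℂ), HasSum (fun x => ‖u x‖ ^ 2) 1 →
      (∀ x, ∑' y, hop K (x - y) * u y + (v (x + y) : ℂ) * u x = (E : ℂ) * u x) → u 0 = 0 := by
    rw [ae_all_iff]
    intro y
    exact ae_shift ν y (good0 hE hL hM hK ν)
  filter_upwards [h1] with v hv E u hu heq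
  by_contra hcon
  obtain ⟨y, hy⟩ : ∃ y, u y ≠ 0 := by
    by_contra h2
    push Not at h2
    exact hcon (funext h2)
  obtain ⟨S, hS⟩ : ∃ S : ℝ, S = ∑' x, ‖u x‖ ^ 2 := ⟨_, rfl⟩
  have hS0 : 0 < S := by
    rw [hS]
    exact hu.tsum_pos (fun x => sq_nonneg _) y (by have := norm_pos_iff.2 hy; positivity)
  obtain ⟨w, hw⟩ : ∃ w : (Fin d → ℤ) → ℂ, ∀ x, w x = ((Real.sqrt S)⁻¹ : ℝ) * u (x + y) :=
    ⟨_, fun _ => rfl⟩
  have h2 : w 0 = 0 := by
    refine hv y E w ?_ ?_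
    · have h3 : HasSum (fun x => ‖u x‖ ^ 2) S := by rw [hS]; exact hu.hasSum
      have h4 : HasSum (fun x => ‖u (x + y)‖ ^ 2) S :=
        ((Equiv.addRight y).hasSum_iff (f := fun x => ‖u x‖ ^ 2)).2 h3
      have h5 := h4.mul_left S⁻¹
      rw [inv_mul_cancel₀ hS0.ne'] at h5
      have h6 : (fun x => ‖w x‖ ^ 2) = fun x => S⁻¹ * ‖u (x + y)‖ ^ 2 := by
        funext x
        rw [hw, norm_mul, mul_pow, Complex.norm_real, Real.norm_eq_abs,
          abs_of_nonneg (by positivity), inv_pow, Real.sq_sqrt hS0.le]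
      rw [h6]
      exact h5
    · intro x
      have h3 := heq (x + y)
      have h4 : ∑' z, hop K (x - z) * w z =
          (((Real.sqrt S)⁻¹ : ℝ) : ℂ) * ∑' z, hop K (x + y - z) * u z := by
        rw [← tsum_mul_left, ← (Equiv.addRight y).tsum_eq
          (fun z => (((Real.sqrt S)⁻¹ : ℝ) : ℂ) * (hop K (x + y - z) * u z))]
        refine tsum_congr fun z => ?_
        rw [hw, Equiv.coe_addRight]
        show hop K (x - z) * _ = _ * (hop K (x + y - (z + y)) * _)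
        rw [show x + y - (z + y) = x - z by abel]
        ring
      rw [h4, hw]
      linear_combination (((Real.sqrt S)⁻¹ : ℝ) : ℂ) * h3
  rw [hw, zero_add] at h2
  rcases mul_eq_zero.1 h2 with h3 | h3
  · have : (Real.sqrt S)⁻¹ = 0 := by exact_mod_cast h3
    have h4 : 0 < (Real.sqrt S)⁻¹ := by positivity
    linarith
  · exact hy h3

theorem main : S_KP → S_LIP → S_MEAS → S_EIG → S_FINAL := by
  intro hKP hL hM hE d hd
  have := baire d
  have hres : ∀ᶠ K : SymSp d in residual (SymSp d), ∀ m, K.1 ∈ Om d m := by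
    rw [eventually_countable_forall]
    intro m
    apply residual_of_dense_open
    · exact (Om_open hL hM d m).preimage continuous_subtype_val
    · exact Om_dense hKP hd m
  refine ⟨?_, ?_⟩
  · filter_upwards [hres] with K hK ν _
    exact noEig hE hL hM hK ν
  · intro K₀ ε h0 hε
    have hdense := dense_of_mem_residual hres
    have hopen : IsOpen {K : SymSp d | ‖K.1 - K₀‖ < ε} := by
      have h1 : IsOpen {K : C(UnitAddTorus (Fin d), ℝ) | ‖K - K₀‖ < ε} :=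
        isOpen_lt (by fun_prop) continuous_const
      exact h1.preimage continuous_subtype_val
    obtain ⟨K, hK1, hK2⟩ := hdense.inter_open_nonempty _ hopen ⟨⟨K₀, h0⟩, by
      show ‖K₀ - K₀‖ < ε
      rw [sub_self, norm_zero]
      exact hε⟩
    exact ⟨K.1, K.2, hK1, fun ν _ => noEig hE hL hM hK2 ν⟩

end

end Pool.Agent.W174.GK
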